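import Pool.Agent.H.MP_387a72_lc.A
import Pool.Agent.H.MP_387a72_lc.B

set_option autoImplicit false

namespace Pool.Agent.H.MP_387a72_lc
open Set

inductive K
  | A (s : Bool)
  | C
  | D
  deriving Countable

inductive Pos (α : Type)
  | top
  | bot
  | pad (p : Pos α)
  | and (p q : Pos α)
  | iso (l : List (α × α))
  | ch (l : List (α × α)) (s : Bool) (z : α)
  | emb (s : Bool) (x y x' : α) (m : Option α)
  | wit (x x' : Bool → α) (m : Bool → Option (Option α))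
  | ex (k : K) (x : Bool → α)
  | root (k : K)
  deriving Countable

variable {α β : Type}

def co (s : Bool) (p : α × α) : α := if s = true then p.1 else p.2

def pr (s : Bool) (z w : α) : α × α := if s = true then (z, w) else (w, z)

def Hull [LE α] (l : List (α × α)) (s : Bool) (z : α) : Prop :=
  ∃ p, p ∈ l ∧ ∃ q, q ∈ l ∧ co s p ≤ z ∧ z ≤ co s q

def Cmp [LE α] (l : List (α × α)) : Prop := ∀ p, p ∈ l → ∀ q, q ∈ l → (p.1 ≤ q.1 ↔ p.2 ≤ q.2)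

def okm (k : K) (m : Bool → Option (Option α)) : Prop :=
  match k with
  | K.A s => (∃ e, m s = some (some e)) ∧ m (!s) = none
  | K.C => ∀ t, ∃ e, m t = some (some e)
  | K.D => ∃ s, (∃ e, m s = some (some e)) ∧ m (!s) = some none

def al : Pos α → Prop
  | Pos.and _ _ => True
  | Pos.iso _ => True
  | Pos.wit _ _ _ => True
  | Pos.root _ => True
  | _ => False

def sc [LE α] : Pos α → Pos α → Prop
  | Pos.top, q => q = Pos.top
  | Pos.bot, _ => False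
  | Pos.pad p, q => q = p
  | Pos.and p p', q => q = p ∨ q = p'
  | Pos.iso l, q => (q = Pos.bot ∧ ¬ Cmp l) ∨ ∃ s z, q = Pos.ch l s z ∧ Hull l s z
  | Pos.ch l s z, q => ∃ w, q = Pos.iso (pr s z w :: l) ∧ Hull l (!s) w
  | Pos.emb s x y x' m, q => (∃ y', sle s x' y' ∧
      ((∃ e, m = some e ∧ ¬ sle s e y' ∧ q = Pos.iso [(x, x'), (y, y')]) ∨
        (m = none ∧ q = Pos.and (Pos.iso [(x, x'), (y, y')]) (Pos.root (K.A (!s)))))) ∨
      (m = none ∧ q = Pos.root K.C)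
  | Pos.wit x x' m, q => q = Pos.iso [(x false, x' false), (x true, x' true)] ∨
      (∃ s y μ, m s = some μ ∧ sle s (x s) y ∧ q = Pos.emb s (x s) y (x' s) μ) ∨
      ((∀ t, ∃ e, m t = some (some e)) ∧ ∃ s, q = Pos.root (K.A s))
  | Pos.ex k x, q => ∃ x' m, okm k m ∧ q = Pos.wit x x' m
  | Pos.root k, q => ∃ x : Bool → α, x false ≤ x true ∧ q = Pos.ex k x

def GG (α : Type) [LE α] : Game (Pos α) := ⟨al, sc⟩

def DD (α : Type) [LE α] : Pad (GG α) :=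
  ⟨Pos.pad, Pos.top, fun _ h => h, fun _ _ => Iff.rfl, fun h => h, rfl⟩

noncomputable abbrev r [LE α] (p : Pos α) : W := rk (GG α) p

theorem co_pr (s : Bool) (z w : α) : co s (pr s z w) = z := by cases s <;> rfl
theorem co_pr' (s : Bool) (z w : α) : co (!s) (pr s z w) = w := by cases s <;> rfl

variable [LinearOrder α] [LinearOrder β]

theorem bot_ne : r (Pos.bot : Pos α) ≠ ⊤ := by
  intro h
  obtain ⟨q, hq, -⟩ := (ex_top (G := GG α) (p := Pos.bot) fun h => h).mp h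
  exact hq

theorem bot_le' : r (Pos.bot : Pos α) ≤ r (Pos.bot : Pos β) :=
  ex_le (fun h => h) (fun h => h) fun _ hq => hq.elim

def F (R : Bool → α → β → Prop) (l : List (α × α)) (l' : List (β × β)) : Prop :=
  (∀ p ∈ l, ∃ p' ∈ l', ∀ s, R s (co s p) (co s p')) ∧
    (∀ p' ∈ l', ∃ p ∈ l, ∀ s, R s (co s p) (co s p'))

theorem F.flip {R : Bool → α → β → Prop} {l : List (α × α)} {l' : List (β × β)} (h : F R l l') :
    F (fun s b a => R s a b) l' l := ⟨h.2, h.1⟩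

theorem F.hull {R : Bool → α → β → Prop} (hR : ∀ s, CPI (R s)) {l : List (α × α)}
    {l' : List (β × β)} (h : F R l l') {s : Bool} {z : α} (hz : Hull l s z) :
    ∃ z', R s z z' ∧ Hull l' s z' := by
  obtain ⟨p, hp, q, hq, h1, h2⟩ := hz
  obtain ⟨p', hp', h3⟩ := h.1 p hp
  obtain ⟨q', hq', h4⟩ := h.1 q hq
  obtain ⟨w, hw⟩ := (hR s).2.1 _ _ _ _ z (h3 s) (h4 s) h1 h2
  exact ⟨w, hw, p', hp', q', hq', ((hR s).1 _ _ _ _ (h3 s) hw).mp h1,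
    ((hR s).1 _ _ _ _ hw (h4 s)).mp h2⟩

theorem F.cmp {R : Bool → α → β → Prop} (hR : ∀ s, CPI (R s)) {l : List (α × α)}
    {l' : List (β × β)} (h : F R l l') (hc : Cmp l) : Cmp l' := by
  intro p' hp' q' hq'
  obtain ⟨p, hp, h3⟩ := h.2 p' hp'
  obtain ⟨q, hq, h4⟩ := h.2 q' hq'
  exact ((hR true).1 _ _ _ _ (h3 true) (h4 true)).symm.trans
    ((hc p hp q hq).trans ((hR false).1 _ _ _ _ (h3 false) (h4 false)))

theorem F.cons {R : Bool → α → β → Prop} {l : List (α × α)} {l' : List (β × β)} (h : F R l l')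
    {p : α × α} {p' : β × β} (hp : ∀ s, R s (co s p) (co s p')) : F R (p :: l) (p' :: l') := by
  constructor
  · intro q hq
    rcases List.mem_cons.mp hq with rfl | hq
    · exact ⟨p', List.mem_cons_self, hp⟩
    · obtain ⟨q', hq', h'⟩ := h.1 q hq
      exact ⟨q', List.mem_cons_of_mem _ hq', h'⟩
  · intro q hq
    rcases List.mem_cons.mp hq with rfl | hq
    · exact ⟨p, List.mem_cons_self, hp⟩
    · obtain ⟨q', hq', h'⟩ := h.2 q hq
      exact ⟨q', List.mem_cons_of_mem _ hq', h'⟩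

theorem F.nil (R : Bool → α → β → Prop) : F R [] [] := ⟨by simp, by simp⟩

theorem iso_sim {R : Bool → α → β → Prop} (hR : ∀ s, CPI (R s)) {p : Pos α} {p' : Pos β}
    (h : (∃ l l', p = Pos.iso l ∧ p' = Pos.iso l' ∧ F R l l') ∨
      (∃ l l' s z z', p = Pos.ch l s z ∧ p' = Pos.ch l' s z' ∧ F R l l' ∧ R s z z')) :
    r p ≤ r p' := by
  refine sim_le (fun p p' => (∃ l l', p = Pos.iso l ∧ p' = Pos.iso l' ∧ F R l l') ∨
      (∃ l l' s z z', p = Pos.ch l s z ∧ p' = Pos.ch l' s z' ∧ F R l l' ∧ R s z z')) ?_ h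
  rintro p p' (⟨l, l', rfl, rfl, hF⟩ | ⟨l, l', s, z, z', rfl, rfl, hF, hz⟩)
  · refine Or.inl ⟨trivial, trivial, ?_⟩
    rintro q' (⟨rfl, hc⟩ | ⟨s, z', rfl, hz⟩)
    · exact ⟨Pos.bot, Or.inl ⟨rfl, fun h => hc (hF.cmp hR h)⟩, Or.inr bot_le'⟩
    · obtain ⟨z, h1, h2⟩ := hF.flip.hull (fun s => (hR s).flip) hz
      exact ⟨_, Or.inr ⟨s, z, rfl, h2⟩, Or.inl (Or.inr ⟨l, l', s, z, z', rfl, rfl, hF, h1⟩)⟩
  · refine Or.inr ⟨fun h => h, fun h => h, ?_⟩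
    rintro q ⟨w, rfl, hw⟩
    obtain ⟨w', h1, h2⟩ := hF.hull hR hw
    refine ⟨_, ⟨w', rfl, h2⟩, Or.inl (Or.inl ⟨_, _, rfl, rfl, hF.cons fun t => ?_⟩)⟩
    cases s <;> cases t <;> assumption

theorem iso2_le {R1 R2 : α → β → Prop} (h1 : CPI R1) (h2 : CPI R2) {x y x' y' : α}
    {c d c' d' : β} (e1 : R1 x c) (e2 : R1 y d) (e3 : R2 x' c') (e4 : R2 y' d') :
    r (Pos.iso [(x, x'), (y, y')]) ≤ r (Pos.iso [(c, c'), (d, d')]) := by
  refine iso_sim (R := fun s => if s = true then R1 else R2) (fun s => by cases s <;> assumption)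
    (Or.inl ⟨_, _, rfl, rfl, ((F.nil _).cons fun s => ?_).cons fun s => ?_⟩)
  · cases s <;> assumption
  · cases s <;> assumption

theorem iso_top {R : α → α → Prop} (hR : CPI R) {l : List (α × α)} (hl : ∀ p ∈ l, R p.1 p.2) :
    r (Pos.iso l) = ⊤ := by
  refine coind (G := GG α) (fun p => (∃ l, p = Pos.iso l ∧ ∀ p ∈ l, R p.1 p.2) ∨
    (∃ l s z, p = Pos.ch l s z ∧ (∀ p ∈ l, R p.1 p.2) ∧ Hull l s z)) ?_ (Or.inl ⟨l, rfl, hl⟩)
  rintro p (⟨l, rfl, hl⟩ | ⟨l, s, z, rfl, hl, p, hp, q, hq, h1, h2⟩)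
  · refine Or.inl ⟨trivial, ?_⟩
    rintro q (⟨rfl, hc⟩ | ⟨s, z, rfl, hz⟩)
    · exact absurd (fun p hp q hq => hR.1 _ _ _ _ (hl p hp) (hl q hq)) hc
    · exact Or.inr ⟨l, s, z, rfl, hl, hz⟩
  · refine Or.inr ⟨fun h => h, ?_⟩
    cases s
    · obtain ⟨w, hw⟩ := hR.2.2 _ _ _ _ z (hl p hp) (hl q hq) h1 h2
      refine ⟨_, ⟨w, rfl, p, hp, q, hq, (hR.1 _ _ _ _ (hl p hp) hw).mpr h1,
        (hR.1 _ _ _ _ hw (hl q hq)).mpr h2⟩, Or.inl ⟨_, rfl, fun t ht => ?_⟩⟩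
      rcases List.mem_cons.mp ht with rfl | ht
      exacts [hw, hl t ht]
    · obtain ⟨w, hw⟩ := hR.2.1 _ _ _ _ z (hl p hp) (hl q hq) h1 h2
      refine ⟨_, ⟨w, rfl, p, hp, q, hq, (hR.1 _ _ _ _ (hl p hp) hw).mp h1,
        (hR.1 _ _ _ _ hw (hl q hq)).mp h2⟩, Or.inl ⟨_, rfl, fun t ht => ?_⟩⟩
      rcases List.mem_cons.mp ht with rfl | ht
      exacts [hw, hl t ht]

theorem iso_sound [Countable α] {l0 : List (α × α)} (h : r (Pos.iso l0) = ⊤) :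
    ∃ R : α → α → Prop, CPI R ∧ ∀ p ∈ l0, R p.1 p.2 := by
  have hcv : ∀ s a a' z, Hull l0 s a → Hull l0 s a' → a ≤ z → z ≤ a' → Hull l0 s z := by
    rintro s a a' z ⟨p, hp, -, -, h1, -⟩ ⟨-, -, q, hq, -, h2⟩ h3 h4
    exact ⟨p, hp, q, hq, h1.trans h3, h4.trans h2⟩
  let X : List (α × α) → Prop := fun l =>
    r (Pos.iso l) = ⊤ ∧ l0 ⊆ l ∧ ∀ s, ∀ p ∈ l, Hull l0 s (co s p)
  have hs : ∀ s l, X l → ∀ z, Hull l0 s z → ∃ w, X (pr s z w :: l) := by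
    rintro s l ⟨h1, h2, h3⟩ z hz
    have h4 : Hull l s z := by
      obtain ⟨p, hp, q, hq, h⟩ := hz
      exact ⟨p, h2 hp, q, h2 hq, h⟩
    have h5 := (al_top (G := GG α) (p := Pos.iso l) trivial).mp h1 _ (Or.inr ⟨s, z, rfl, h4⟩)
    obtain ⟨_, ⟨w, rfl, p, hp, q, hq, h6, h7⟩, h8⟩ :=
      (ex_top (G := GG α) (p := Pos.ch l s z) fun h => h).mp h5
    refine ⟨w, h8, fun t ht => List.mem_cons_of_mem _ (h2 ht), fun t u hu => ?_⟩
    rcases List.mem_cons.mp hu with rfl | hu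
    · have h9 := hcv _ _ _ _ (h3 _ p hp) (h3 _ q hq) h6 h7
      cases s <;> cases t <;> assumption
    · exact h3 t u hu
  obtain ⟨R, h1, h2, h3, h4⟩ := bf {z | Hull l0 true z} {z | Hull l0 false z} X l0
    ⟨h, fun _ h => h, fun s p hp => ⟨p, hp, p, hp, le_rfl, le_rfl⟩⟩ (hs true) (hs false)
  refine ⟨R, ⟨fun a b a' b' e1 e2 => ?_, fun a b a' b' z e1 e2 e3 e4 => ?_,
    fun a b a' b' z e1 e2 e3 e4 => ?_⟩, h1⟩
  · obtain ⟨l, hl, m1, m2⟩ := h4 a b a' b' e1 e2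
    by_contra hc
    exact bot_ne ((al_top (G := GG α) (p := Pos.iso l) trivial).mp hl.1 _
      (Or.inl ⟨rfl, fun h => hc (h _ m1 _ m2)⟩))
  · obtain ⟨l, hl, m1, m2⟩ := h4 a b a' b' e1 e2
    exact h2 z (hcv _ _ _ _ (hl.2.2 true _ m1) (hl.2.2 true _ m2) e3 e4)
  · obtain ⟨l, hl, m1, m2⟩ := h4 a b a' b' e1 e2
    exact h3 z (hcv _ _ _ _ (hl.2.2 false _ m1) (hl.2.2 false _ m2) e3 e4)

theorem iso2_sound [Countable α] {x y x' y' : α} (h : r (Pos.iso [(x, x'), (y, y')]) = ⊤) :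
    II x y x' y' := by
  obtain ⟨R, h1, h2⟩ := iso_sound h
  exact ⟨R, h1, h2 (x, x') (by simp), h2 (y, y') (by simp)⟩

noncomputable abbrev rt (α : Type) [LE α] (k : K) : W := r (Pos.root k : Pos α)

def Mr (s : Bool) (R : α → β → Prop) (x' : α) (μ : Option α) (μ' : Option β) : Prop :=
  (∃ e e', μ = some e ∧ μ' = some e' ∧ R e e') ∨
    (μ = none ∧ μ' = none ∧ (∀ y', sle s x' y' → ∃ v, R y' v) ∧
      rt α (K.A (!s)) ≤ rt β (K.A (!s)) ∧ rt α K.C ≤ rt β K.C)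

theorem emb_le {R1 R2 : α → β → Prop} (h1 : CPI R1) (h2 : CPI R2) {s : Bool} {x y x' : α}
    {c d c' : β} {μ : Option α} {μ' : Option β} (e1 : R1 x c) (e2 : R1 y d) (e3 : R2 x' c')
    (hm : Mr s R2 x' μ μ') : r (Pos.emb s x y x' μ) ≤ r (Pos.emb s c d c' μ') := by
  refine ex_le (fun h => h) (fun h => h) ?_
  rcases hm with ⟨e, e', rfl, rfl, he⟩ | ⟨rfl, rfl, ht, hA, hC⟩
  · rintro q (⟨y', hy, ⟨e0, h, hn, rfl⟩ | ⟨h, -⟩⟩ | ⟨h, -⟩)
    · cases h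
      obtain ⟨v, hv⟩ := h2.sfwd s e3 he hy ((sle_total s _ _).resolve_left hn)
      exact ⟨_, Or.inl ⟨v, (h2.1.sle s e3 hv).mp hy, Or.inl ⟨e', rfl,
        fun h => hn ((h2.1.sle s he hv).mpr h), rfl⟩⟩, iso2_le h1 h2 e1 e2 e3 hv⟩
    · cases h
    · cases h
  · rintro q (⟨y', hy, ⟨e0, h, -⟩ | ⟨-, rfl⟩⟩ | ⟨-, rfl⟩)
    · cases h
    · obtain ⟨v, hv⟩ := ht y' hy
      refine ⟨_, Or.inl ⟨v, (h2.1.sle s e3 hv).mp hy, Or.inr ⟨rfl, rfl⟩⟩, al_le trivial trivial ?_⟩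
      rintro q' (rfl | rfl)
      · exact ⟨_, Or.inl rfl, iso2_le h1 h2 e1 e2 e3 hv⟩
      · exact ⟨_, Or.inr rfl, hA⟩
    · exact ⟨_, Or.inr ⟨rfl, rfl⟩, hC⟩

theorem wit_le {R1 R2 : α → β → Prop} (h1 : CPI R1) (h2 : CPI R2) {x x' : Bool → α}
    {c c' : Bool → β} {m : Bool → Option (Option α)} {m' : Bool → Option (Option β)}
    (e1 : ∀ s, R1 (x s) (c s)) (e2 : ∀ s, R2 (x' s) (c' s))
    (hm : ∀ s μ', m' s = some μ' → ∃ μ, m s = some μ ∧ Mr s R2 (x' s) μ μ' ∧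
      ∀ d, sle s (c s) d → ∃ y, R1 y d)
    (hA : (∀ t, ∃ e, m t = some (some e)) → ∀ s, rt α (K.A s) ≤ rt β (K.A s)) :
    r (Pos.wit x x' m) ≤ r (Pos.wit c c' m') := by
  refine al_le trivial trivial ?_
  rintro q' (rfl | ⟨s, d, μ', h3, h4, rfl⟩ | ⟨h3, s, rfl⟩)
  · exact ⟨_, Or.inl rfl, iso2_le h1 h2 (e1 _) (e1 _) (e2 _) (e2 _)⟩
  · obtain ⟨μ, h5, h6, h7⟩ := hm s μ' h3
    obtain ⟨y, hy⟩ := h7 d h4
    exact ⟨_, Or.inr (Or.inl ⟨s, y, μ, h5, (h1.1.sle s (e1 s) hy).mpr h4, rfl⟩),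
      emb_le h1 h2 (e1 s) hy (e2 s) h6⟩
  · have h4 : ∀ t, ∃ e, m t = some (some e) := by
      intro t
      obtain ⟨e', he'⟩ := h3 t
      obtain ⟨μ, h5, ⟨e, _, rfl, -⟩ | ⟨-, h, -⟩, -⟩ := hm t _ he'
      · exact ⟨e, h5⟩
      · cases h
    exact ⟨_, Or.inr (Or.inr ⟨h4, s, rfl⟩), hA h4 s⟩

def Tot {α β : Type} (R : α → β → Prop) : Prop := ∀ a, ∃ b, R a b

theorem exk_le {R1 R2 : α → β → Prop} (h1 : CPI R1) (h2 : CPI R2) (ht : Tot R2) {k : K}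
    {x : Bool → α} {c : Bool → β} (e1 : ∀ s, R1 (x s) (c s))
    (ho : ∀ s, k ≠ K.A (!s) → ∀ d, sle s (c s) d → ∃ y, R1 y d)
    (hA : (∀ t, k ≠ K.A t) → ∀ s, rt α (K.A s) ≤ rt β (K.A s))
    (hC : k = K.D → rt α K.C ≤ rt β K.C) : r (Pos.ex k x) ≤ r (Pos.ex k c) := by
  choose f hf using ht
  refine ex_le (fun h => h) (fun h => h) ?_
  rintro q ⟨x', m, hk, rfl⟩
  refine ⟨_, ⟨fun s => f (x' s), fun s => (m s).map (Option.map f), ?_, rfl⟩,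
    wit_le h1 h2 e1 (fun s => hf _) ?_ ?_⟩
  · cases k with
    | A s =>
      obtain ⟨⟨e, he⟩, h⟩ := hk
      exact ⟨⟨f e, by simp [he]⟩, by simp [h]⟩
    | C =>
      intro t
      obtain ⟨e, he⟩ := hk t
      exact ⟨f e, by simp [he]⟩
    | D =>
      obtain ⟨s, ⟨e, he⟩, h⟩ := hk
      exact ⟨s, ⟨f e, by simp [he]⟩, by simp [h]⟩
  · intro s μ' hμ
    obtain ⟨μ, h3, rfl⟩ := Option.map_eq_some_iff.mp hμ
    refine ⟨μ, h3, ?_, ho s ?_⟩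
    · cases μ with
      | some e => exact Or.inl ⟨e, f e, rfl, rfl, hf e⟩
      | none =>
        have hD : k = K.D := by
          cases k with
          | A t =>
            obtain ⟨⟨e, he⟩, h⟩ := hk
            cases s <;> cases t <;> simp_all
          | C =>
            obtain ⟨e, he⟩ := hk s
            simp_all
          | D => rfl
        exact Or.inr ⟨rfl, rfl, fun y' _ => ⟨_, hf y'⟩, hA (by simp [hD]) _, hC hD⟩
    · rintro rfl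
      have := hk.2
      simp_all
  · intro h3
    refine hA ?_
    rintro t rfl
    obtain ⟨e, he⟩ := h3 (!t)
    have := hk.2
    simp_all

theorem rootk_le {R : α → β → Prop} {S : β → α → Prop} (h1 : CPI R) (h2 : CPI S) (t1 : Tot R)
    (t2 : Tot S) {k : K} (hA : (∀ t, k ≠ K.A t) → ∀ s, rt α (K.A s) ≤ rt β (K.A s))
    (hC : k = K.D → rt α K.C ≤ rt β K.C) : rt α k ≤ rt β k := by
  choose g hg using t2
  refine al_le trivial trivial ?_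
  rintro q' ⟨c, hc, rfl⟩
  exact ⟨_, ⟨fun s => g (c s), (h2.1 _ _ _ _ (hg _) (hg _)).mp hc, rfl⟩,
    exk_le h2.flip h1 t1 (fun s => hg _) (fun s _ d _ => ⟨_, hg d⟩) hA hC⟩

theorem root_le {R : α → β → Prop} {S : β → α → Prop} (h1 : CPI R) (h2 : CPI S) (t1 : Tot R)
    (t2 : Tot S) (k : K) : rt α k ≤ rt β k := by
  have hA : ∀ s, rt α (K.A s) ≤ rt β (K.A s) := fun s =>
    rootk_le h1 h2 t1 t2 (fun h => absurd rfl (h s)) fun h => by cases h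
  have hC : rt α K.C ≤ rt β K.C := rootk_le h1 h2 t1 t2 (fun _ => hA) fun h => by cases h
  exact rootk_le h1 h2 t1 t2 (fun _ => hA) fun _ => hC

end Pool.Agent.H.MP_387a72_lc
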