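import Pool.Agent.H.MP_387a72_lc.D

set_option autoImplicit false

namespace Pool.Agent.H.MP_387a72_lc
open Set

def IsBis {S S' Λ : Type} (s : S → S → Prop) (s' : S' → S' → Prop) (l : S → Λ) (l' : S' → Λ)
    (Z : S → S' → Prop) : Prop :=
  ∀ u u', Z u u' → l u = l' u' ∧ (∀ v, s u v → ∃ v', s' u' v' ∧ Z v v') ∧
    (∀ v', s' u' v' → ∃ v, s u v ∧ Z v v')

theorem IsBis.flip {S S' Λ : Type} {s : S → S → Prop} {s' : S' → S' → Prop} {l : S → Λ}
    {l' : S' → Λ} {Z : S → S' → Prop} (h : IsBis s s' l l' Z) :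
    IsBis s' s l' l (fun a b => Z b a) :=
  fun u u' hz => ⟨(h u' u hz).1.symm, (h u' u hz).2.2, (h u' u hz).2.1⟩

inductive St (α : Type)
  | root
  | jk (k : Bool → Bool)
  | set (k : Bool → Bool)
  | tup (k : Bool → Bool) (d : Bool → Option α) (l : List α)
  | edge (k : Bool → Bool) (n : List (Bool × Bool)) (b : Bool) (t : St α)
  | cd (c : Bool × Pos α × Pos α)
  deriving Countable

variable {α β : Type}

def Iv [LE α] (d : Bool → Option α) (z : α) : Prop := ∀ s e, d s = some e → sle s z e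

def mask (α : Type) (k : Bool → Bool) : Pos α :=
  if k false = true then (if k true = true then Pos.bot else Pos.root (K.A true))
  else (if k true = true then Pos.root (K.A false) else Pos.root K.D)

def mb (α : Type) (k : Bool → Bool) (b : Bool) : Pos α := if b = true then mask α k else Pos.top

def Ty [LE α] (z : α) : List α → List (Bool × Bool) → Prop
  | [], n => n = []
  | w :: l, n => ∃ c n', n = c :: n' ∧ (c.1 = true ↔ z ≤ w) ∧ (c.2 = true ↔ w ≤ z) ∧ Ty z l n'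

def ss [LE α] : St α → St α → Prop
  | St.root, v => ∃ k, v = St.set k
  | St.jk k, v => ∃ n, v = St.edge k n false (St.jk k)
  | St.set k, v => (∃ n, v = St.edge k n false (St.jk k)) ∨
      ∃ d : Bool → Option α, (∀ s, (d s).isSome = k s) ∧ (∃ z, Iv d z) ∧
        v = St.edge k [] true (St.tup k d [])
  | St.tup k d l, v => (∃ n, v = St.edge k n false (St.jk k)) ∨
      ∃ z n, Iv d z ∧ Ty z l n ∧ v = St.edge k n true (St.tup k d (z :: l))
  | St.edge k _ b t, v => v = t ∨ v = St.cd (true, mb α k b, mb α k b)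
  | St.cd c, v => ∃ c', cs (DD α) c c' ∧ v = St.cd c'

def lab : St α → ℕ × (Bool → Bool) × List (Bool × Bool)
  | St.root => (0, fun _ => true, [])
  | St.jk k => (1, k, [])
  | St.set k => (1, k, [])
  | St.tup k _ _ => (1, k, [])
  | St.edge k n _ _ => (2, k, n)
  | St.cd c => (3, fun _ => c.1, [])

def M (k : Bool → Bool) (t : St α) : Prop :=
  t = St.jk k ∨ t = St.set k ∨ ∃ d l, t = St.tup k d l

theorem M.lab {k : Bool → Bool} {t : St α} (h : M k t) : lab t = (1, k, []) := by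
  rcases h with rfl | rfl | ⟨d, l, rfl⟩ <;> rfl

variable [LinearOrder α] [LinearOrder β]

theorem M.fake {k : Bool → Bool} {t : St α} (h : M k t) (n : List (Bool × Bool)) :
    ss t (St.edge k n false (St.jk k)) := by
  rcases h with rfl | rfl | ⟨d, l, rfl⟩
  exacts [⟨n, rfl⟩, Or.inl ⟨n, rfl⟩, Or.inl ⟨n, rfl⟩]

theorem M.succ {k : Bool → Bool} {t v : St α} (h : M k t) (hv : ss t v) :
    ∃ n b t', v = St.edge k n b t' ∧ M k t' := by
  rcases h with rfl | rfl | ⟨d, l, rfl⟩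
  · obtain ⟨n, rfl⟩ := hv
    exact ⟨_, _, _, rfl, Or.inl rfl⟩
  · rcases hv with ⟨n, rfl⟩ | ⟨d, -, -, rfl⟩
    · exact ⟨_, _, _, rfl, Or.inl rfl⟩
    · exact ⟨_, _, _, rfl, Or.inr (Or.inr ⟨_, _, rfl⟩)⟩
  · rcases hv with ⟨n, rfl⟩ | ⟨z, n, -, -, rfl⟩
    · exact ⟨_, _, _, rfl, Or.inl rfl⟩
    · exact ⟨_, _, _, rfl, Or.inr (Or.inr ⟨_, _, rfl⟩)⟩

theorem ty_ex (z : α) (l : List α) : ∃ n, Ty z l n := by
  induction l with
  | nil => exact ⟨[], rfl⟩
  | cons w l ih =>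
    obtain ⟨n, hn⟩ := ih
    exact ⟨(decide (z ≤ w), decide (w ≤ z)) :: n, _, n, rfl, by simp, by simp, hn⟩

theorem ty_map {T : α → β → Prop} (hT : PI T) {z : α} {z' : β} (hz : T z z') {l : List α}
    {l' : List β} (h : List.Forall₂ T l l') : ∀ {n}, Ty z l n → Ty z' l' n := by
  induction h with
  | nil => exact fun h => h
  | cons hw _ ih =>
    rintro n ⟨c, n', rfl, h1, h2, h3⟩
    exact ⟨c, n', rfl, h1.trans (hT _ _ _ _ hz hw), h2.trans (hT _ _ _ _ hw hz), ih h3⟩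

theorem ty_cmp {z : α} {z' : β} (l : List (α × β)) : ∀ {n}, Ty z (l.map Prod.fst) n →
    Ty z' (l.map Prod.snd) n → ∀ p ∈ l, (z ≤ p.1 ↔ z' ≤ p.2) ∧ (p.1 ≤ z ↔ p.2 ≤ z') := by
  induction l with
  | nil => simp
  | cons q l ih =>
    rintro n ⟨c, n', rfl, h1, h2, h3⟩ ⟨c', n'', he, h4, h5, h6⟩ p hp
    cases he
    rcases List.mem_cons.mp hp with rfl | hp
    · exact ⟨h1.symm.trans h4, h2.symm.trans h5⟩
    · exact ih h3 h6 p hp

def Full (T : α → β → Prop) (d : Bool → Option α) (d' : Bool → Option β) : Prop :=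
  PI T ∧ (∀ z, Iv d z → ∃ z', Iv d' z' ∧ T z z') ∧ (∀ z', Iv d' z' → ∃ z, Iv d z ∧ T z z')

inductive Z : St α → St β → Prop
  | root : Z St.root St.root
  | cd (c c') : Zc (GG α) (GG β) c c' → Z (St.cd c) (St.cd c')
  | edge (k n b b' t t') : Z t t' → r (mb α k b) = r (mb β k b') →
      Z (St.edge k n b t) (St.edge k n b' t')
  | closed (k t t') : r (mask α k) = ⊤ → r (mask β k) = ⊤ → M k t → M k t' → Z t t'
  | jk (k) : Z (St.jk k) (St.jk k)
  | set (k) : r (mask α k) ≠ ⊤ → r (mask β k) ≠ ⊤ → Z (St.set k) (St.set k)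
  | tup (k d d' l l' T) : Full T d d' → List.Forall₂ T l l' → Z (St.tup k d l) (St.tup k d' l')

theorem Z.flip {u : St α} {u' : St β} (h : Z u u') : Z u' u := by
  induction h with
  | root => exact Z.root
  | cd c c' h => exact Z.cd _ _ ⟨h.1.symm, h.2.2.1, h.2.1, h.2.2.2.symm⟩
  | edge k n b b' t t' _ h ih => exact Z.edge _ _ _ _ _ _ ih h.symm
  | closed k t t' h1 h2 h3 h4 => exact Z.closed _ _ _ h2 h1 h4 h3
  | jk k => exact Z.jk k
  | set k h1 h2 => exact Z.set k h2 h1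
  | tup k d d' l l' T h1 h2 =>
    exact Z.tup _ _ _ _ _ (fun b a => T a b)
      ⟨fun _ _ _ _ e1 e2 => (h1.1 _ _ _ _ e1 e2).symm, h1.2.2, h1.2.1⟩ h2.flip

theorem Z.lab {u : St α} {u' : St β} (h : Z u u') : lab u = lab u' := by
  cases h with
  | root => rfl
  | cd c c' h => simp only [MP_387a72_lc.lab, h.1]
  | edge k n b b' t t' _ h => rfl
  | closed k _ _ h1 h2 h3 h4 => rw [h3.lab, h4.lab]
  | jk k => rfl
  | set k h1 h2 => rfl
  | tup k d d' l l' T h1 h2 => rfl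

theorem mask_top {k : Bool → Bool} {s : Bool} (hk : k s = false) (h : Comp α s) :
    r (mask α k) = ⊤ := by
  unfold mask
  cases s
  · simp only [hk, Bool.false_eq_true, if_false]
    split_ifs
    exacts [root_top (exA_top h), root_top (exD_top h)]
  · simp only [hk, Bool.false_eq_true, if_false]
    split_ifs
    exacts [root_top (exA_top h), root_top (exD_top h)]

theorem Z.forth [Countable α] [Nonempty α] {R : α → β → Prop} {S : β → α → Prop} (h1 : CPI R)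
    (h2 : CPI S) (t1 : Tot R) (t2 : Tot S) {u v : St α} {u' : St β} (h : Z u u') (hv : ss u v) :
    ∃ v', ss u' v' ∧ Z v v' := by
  have hm : ∀ k, r (mask α k) = r (mask β k) := by
    intro k
    have hrt : ∀ k, rt α k = rt β k := fun k =>
      le_antisymm (root_le h1 h2 t1 t2 k) (root_le h2 h1 t2 t1 k)
    unfold mask
    split_ifs
    exacts [le_antisymm bot_le' bot_le', hrt _, hrt _, hrt _]
  have htop : ∀ k, r (mb α k false) = r (mb β k false) := fun k =>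
    (rk_top (DD α)).trans (rk_top (DD β)).symm
  have hfake : ∀ k n, Z (St.edge k n false (St.jk k) : St α) (St.edge k n false (St.jk k) : St β) :=
    fun k n => Z.edge _ _ _ _ _ _ (Z.jk k) (htop k)
  cases h with
  | root =>
    obtain ⟨k, rfl⟩ := hv
    refine ⟨_, ⟨k, rfl⟩, ?_⟩
    by_cases h : r (mask α k) = ⊤
    · exact Z.closed k _ _ h (hm k ▸ h) (Or.inr (Or.inl rfl)) (Or.inr (Or.inl rfl))
    · exact Z.set k h (hm k ▸ h)
  | cd c c' h =>
    obtain ⟨d, hd, rfl⟩ := hv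
    obtain ⟨d', hd', hz⟩ := Zc_forth (DD α) (DD β) (good h1 h2 t1 t2) h hd
    exact ⟨_, ⟨d', hd', rfl⟩, Z.cd _ _ hz⟩
  | edge k n b b' t t' h h' =>
    rcases hv with rfl | rfl
    · exact ⟨_, Or.inl rfl, h⟩
    · refine ⟨_, Or.inr rfl, Z.cd _ _ ⟨rfl, (fun h => by cases h), (fun h => by cases h), ?_⟩⟩
      simpa [cr] using h'
  | closed k _ _ e1 e2 m1 m2 =>
    obtain ⟨n, b, t, rfl, m3⟩ := m1.succ hv
    refine ⟨_, m2.fake n, Z.edge _ _ _ _ _ _ (Z.closed k _ _ e1 e2 m3 (Or.inl rfl)) ?_⟩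
    cases b
    · exact htop k
    · exact e1.trans (rk_top (DD β)).symm
  | jk k =>
    obtain ⟨n, rfl⟩ := hv
    exact ⟨_, ⟨n, rfl⟩, hfake k n⟩
  | set k e1 e2 =>
    rcases hv with ⟨n, rfl⟩ | ⟨d, hd, ⟨z0, hz0⟩, rfl⟩
    · exact ⟨_, Or.inl ⟨n, rfl⟩, hfake k n⟩
    choose f hf using id t1
    have hI : ∀ z z', R z z' → (Iv d z ↔ Iv (fun s => (d s).map f) z') := by
      intro z z' hz
      constructor
      · intro h s e he
        obtain ⟨e0, h3, rfl⟩ := Option.map_eq_some_iff.mp he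
        exact (h1.1.sle s hz (hf _)).mp (h s e0 h3)
      · intro h s e he
        exact (h1.1.sle s hz (hf _)).mpr (h s (f e) (by simp [he]))
    refine ⟨_, Or.inr ⟨fun s => (d s).map f, fun s => by simp [hd s], ⟨f z0, (hI _ _ (hf _)).mp hz0⟩,
      rfl⟩, Z.edge _ _ _ _ _ _ (Z.tup _ _ _ _ _ R ⟨h1.1, fun z hz => ⟨f z, (hI _ _ (hf _)).mp hz,
        hf z⟩, fun z' hz' => ?_⟩ List.Forall₂.nil) (hm k)⟩
    have : ∃ s, sle s (f z0) z' := by
      rcases le_total (f z0) z' with h | h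
      exacts [⟨true, sle_t.mpr h⟩, ⟨false, sle_f.mpr h⟩]
    obtain ⟨s, hs⟩ := this
    have : ∃ z, R z z' := by
      cases he : d s with
      | some e => exact h1.flip.sfwd s (hf z0) (hf e) hs (hz' s (f e) (by simp [he]))
      | none =>
        exact fix h1 h2 t1 t2 (fun hc => e1 (mask_top (by rw [← hd s, he]; rfl) hc)) (hf z0) z' hs
    obtain ⟨z, hz⟩ := this
    exact ⟨z, (hI _ _ hz).mpr hz', hz⟩
  | tup k d d' l l' T e1 e2 =>
    rcases hv with ⟨n, rfl⟩ | ⟨z, n, hz, hn, rfl⟩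
    · exact ⟨_, Or.inl ⟨n, rfl⟩, hfake k n⟩
    obtain ⟨z', h3, h4⟩ := e1.2.1 z hz
    exact ⟨_, Or.inr ⟨z', n, h3, ty_map e1.1 h4 e2 hn, rfl⟩,
      Z.edge _ _ _ _ _ _ (Z.tup _ _ _ _ _ T e1 (List.Forall₂.cons h4 e2)) (hm k)⟩

theorem invariance [Countable α] [Nonempty α] [Countable β] [Nonempty β] {R : α → β → Prop}
    {S : β → α → Prop} (h1 : CPI R) (h2 : CPI S) (t1 : Tot R) (t2 : Tot S) :
    IsBis (ss (α := α)) (ss (α := β)) lab lab Z := fun _ _ h =>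
  ⟨h.lab, fun _ hv => h.forth h1 h2 t1 t2 hv, fun _ hv =>
    (h.flip.forth h2 h1 t2 t1 hv).imp fun _ h => ⟨h.1, h.2.flip⟩⟩

theorem edge_bis {Y : St α → St β → Prop} (hY : IsBis ss ss lab lab Y) {k n n' b b' t t'}
    (h : Y (St.edge k n b t) (St.edge k n' b' t')) (m1 : M k t) (m2 : M k t') :
    n = n' ∧ Y t t' ∧ r (mb β k b') ≤ r (mb α k b) := by
  obtain ⟨h1, h2, -⟩ := hY _ _ h
  refine ⟨by simpa [lab] using h1, ?_, ?_⟩
  · obtain ⟨v, rfl | rfl, hv⟩ := h2 t (Or.inl rfl)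
    · exact hv
    · have := (hY _ _ hv).1
      rw [m1.lab] at this
      simp [lab] at this
  · obtain ⟨v, rfl | rfl, hv⟩ := h2 _ (Or.inr rfl)
    · have := (hY _ _ hv).1
      rw [m2.lab] at this
      simp [lab] at this
    · have := status (DD α) (DD β) (fun c c' => Y (St.cd c) (St.cd c')) (fun c c' h d hd => by
        obtain ⟨_, ⟨d', hd', rfl⟩, h3⟩ := (hY _ _ h).2.1 _ ⟨d, hd, rfl⟩
        exact ⟨d', hd', h3⟩) (fun c c' h d hd => by
        obtain ⟨_, ⟨d', hd', rfl⟩, h3⟩ := (hY _ _ h).2.2 _ ⟨d, hd, rfl⟩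
        exact ⟨d', hd', h3⟩) hv rfl rfl
      simpa [cr] using this

theorem tup_step {Y : St α → St β → Prop} (hY : IsBis ss ss lab lab Y) {k d d' l l'}
    (hk : r (mask α k) ≠ ⊤) (h : Y (St.tup k d l) (St.tup k d' l')) {z : α} (hz : Iv d z) :
    ∃ z' n, Iv d' z' ∧ Ty z l n ∧ Ty z' l' n ∧ Y (St.tup k d (z :: l)) (St.tup k d' (z' :: l')) := by
  obtain ⟨n, hn⟩ := ty_ex z l
  obtain ⟨v, ⟨n', rfl⟩ | ⟨z', n', h1, h2, rfl⟩, hv⟩ := (hY _ _ h).2.1 _ (Or.inr ⟨z, n, hz, hn, rfl⟩)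
  · have := (edge_bis hY hv (Or.inr (Or.inr ⟨_, _, rfl⟩)) (Or.inl rfl)).2.2
    exact absurd (top_le_iff.mp ((rk_top (DD β)).ge.trans this)) hk
  · obtain ⟨rfl, h3, -⟩ := edge_bis hY hv (Or.inr (Or.inr ⟨_, _, rfl⟩)) (Or.inr (Or.inr ⟨_, _, rfl⟩))
    exact ⟨z', n, h1, hn, h2, h3⟩

theorem info [Countable α] [Countable β] {Y : St α → St β → Prop} (hY : IsBis ss ss lab lab Y)
    (h0 : Y St.root St.root) {d : Bool → Option α}
    (hk : r (mask α fun s => (d s).isSome) ≠ ⊤) (hd : ∃ z, Iv d z) :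
    ∃ T : α → β → Prop, CPI T ∧ ∀ z, Iv d z → ∃ z', T z z' := by
  set k : Bool → Bool := fun s => (d s).isSome with hk0
  obtain ⟨_, ⟨k', rfl⟩, h1⟩ := (hY _ _ h0).2.1 _ ⟨k, rfl⟩
  have : k = k' := by simpa [lab] using (hY _ _ h1).1
  subst this
  obtain ⟨v, ⟨n', rfl⟩ | ⟨d', -, -, rfl⟩, hv⟩ := (hY _ _ h1).2.1 _ (Or.inr ⟨d, fun _ => rfl, hd, rfl⟩)
  · have := (edge_bis hY hv (Or.inr (Or.inr ⟨_, _, rfl⟩)) (Or.inl rfl)).2.2
    exact absurd (top_le_iff.mp ((rk_top (DD β)).ge.trans this)) hk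
  obtain ⟨-, h2, h3⟩ := edge_bis hY hv (Or.inr (Or.inr ⟨_, _, rfl⟩)) (Or.inr (Or.inr ⟨_, _, rfl⟩))
  have hk' : r (mask β k) ≠ ⊤ := fun h => hk (top_le_iff.mp (h.ge.trans h3))
  let X : List (α × β) → Prop := fun l =>
    Y (St.tup k d (l.map Prod.fst)) (St.tup k d' (l.map Prod.snd)) ∧
      (∀ p ∈ l, ∀ q ∈ l, (p.1 ≤ q.1 ↔ p.2 ≤ q.2)) ∧ ∀ p ∈ l, Iv d p.1 ∧ Iv d' p.2
  have hX : ∀ l z z' n, X l → Iv d z → Iv d' z' → Ty z (l.map Prod.fst) n →
      Ty z' (l.map Prod.snd) n →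
      Y (St.tup k d (z :: l.map Prod.fst)) (St.tup k d' (z' :: l.map Prod.snd)) →
      X ((z, z') :: l) := by
    intro l z z' n h e1 e2 e3 e4 e5
    refine ⟨e5, fun p hp q hq => ?_, fun p hp => ?_⟩
    · rcases List.mem_cons.mp hp with rfl | hp <;> rcases List.mem_cons.mp hq with rfl | hq
      · simp
      · exact (ty_cmp l e3 e4 q hq).1
      · exact (ty_cmp l e3 e4 p hp).2
      · exact h.2.1 p hp q hq
    · rcases List.mem_cons.mp hp with rfl | hp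
      exacts [⟨e1, e2⟩, h.2.2 p hp]
  obtain ⟨T, -, t1, t2, t3⟩ := bf {z | Iv d z} {z | Iv d' z} X [] ⟨h2, by simp, by simp⟩
    (fun l h z hz => by
      obtain ⟨z', n, e1, e2, e3, e4⟩ := tup_step hY hk h.1 hz
      exact ⟨z', hX l z z' n h hz e1 e2 e3 e4⟩)
    (fun l h z hz => by
      obtain ⟨z', n, e1, e2, e3, e4⟩ := tup_step hY.flip hk' h.1 hz
      exact ⟨z', hX l z' z n h e1 hz e3 e2 e4⟩)
  have hcv : ∀ {γ : Type} [LinearOrder γ] (d : Bool → Option γ) (a a' z : γ), Iv d a → Iv d a' →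
      a ≤ z → z ≤ a' → Iv d z := by
    intro γ _ d a a' z e1 e2 e3 e4 s e he
    cases s
    · exact sle_f.mpr ((sle_f.mp (e1 _ e he)).trans e3)
    · exact sle_t.mpr (e4.trans (sle_t.mp (e2 _ e he)))
  refine ⟨T, ⟨fun a b a' b' e1 e2 => ?_, fun a b a' b' z e1 e2 e3 e4 => ?_,
    fun a b a' b' z e1 e2 e3 e4 => ?_⟩, t1⟩
  · obtain ⟨l, hl, m1, m2⟩ := t3 a b a' b' e1 e2
    exact hl.2.1 _ m1 _ m2
  · obtain ⟨l, hl, m1, m2⟩ := t3 a b a' b' e1 e2
    exact t1 z (hcv d _ _ _ (hl.2.2 _ m1).1 (hl.2.2 _ m2).1 e3 e4)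
  · obtain ⟨l, hl, m1, m2⟩ := t3 a b a' b' e1 e2
    exact t2 z (hcv d' _ _ _ (hl.2.2 _ m1).2 (hl.2.2 _ m2).2 e3 e4)

theorem complete [Countable α] [Nonempty α] [Countable β] {Y : St α → St β → Prop}
    (hY : IsBis ss ss lab lab Y) (h0 : Y St.root St.root) :
    ∃ R : α → β → Prop, CPI R ∧ Tot R := by
  obtain ⟨a0⟩ := (inferInstance : Nonempty α)
  have key : ∀ (T : α → α → Prop) (d : Bool → Option α), CPI T → Tot T →
      (∀ a b, T a b → Iv d b) → r (mask α fun s => (d s).isSome) ≠ ⊤ →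
      ∃ R : α → β → Prop, CPI R ∧ Tot R := by
    intro T d h1 t h2 h3
    obtain ⟨U, h4, h5⟩ := info hY h0 h3 ((t a0).imp fun b hb => h2 _ _ hb)
    refine ⟨_, h1.comp h4, fun a => ?_⟩
    obtain ⟨b, hb⟩ := t a
    obtain ⟨c, hc⟩ := h5 b (h2 _ _ hb)
    exact ⟨c, b, hb, hc⟩
  by_cases hD : rt α K.D = ⊤
  · obtain ⟨s, hs⟩ := soundD hD
    by_cases hA : rt α (K.A (!s)) = ⊤
    · obtain ⟨T, e, h1, t, h2⟩ := comp_both (both_of hs (soundA hA (by simpa using hs)))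
      refine key T (fun s => some (e s)) h1 t (fun a b h s e' he => ?_) bot_ne
      cases he
      exact (sle_total s _ _).resolve_left (h2 s a b h)
    · obtain ⟨T, e, h1, t, h2⟩ := hs
      refine key T (fun t => if t = s then some e else none) h1 t (fun a b h t e' he => ?_) ?_
      · dsimp only at he
        split_ifs at he with h3
        cases he
        exact h3 ▸ (sle_total s _ _).resolve_left (h2 a b h)
      · cases s <;> exact hA
  · exact key _ (fun _ => none) CPI.refl (fun a => ⟨a, rfl⟩) (fun _ _ _ _ _ h => by cases h) hD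

end Pool.Agent.H.MP_387a72_lc
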