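import Pool.Agent.H.MP_387a72_lc.E

set_option autoImplicit false

namespace Pool.Agent.H.MP_387a72_lc
open Set

def XX : Type := ℚ × ℕ

instance : Countable XX := (inferInstance : Countable (ℚ × ℕ))

noncomputable def val (p : XX) : ℝ := (p.1 : ℝ) + (p.2 : ℝ) * √2

theorem val_inj : Function.Injective val := by
  rintro ⟨q, n⟩ ⟨q', n'⟩ h
  simp only [val] at h
  by_cases hn : n = n'
  · subst hn
    have : (q : ℝ) = q' := by linarith
    rw [Rat.cast_injective this]
  · exfalso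
    have h1 : ((n : ℝ) - n') ≠ 0 := sub_ne_zero.mpr (by exact_mod_cast hn)
    refine irrational_sqrt_two ⟨(q' - q) / ((n : ℚ) - n'), ?_⟩
    push_cast
    rw [div_eq_iff h1]
    linarith

noncomputable instance : LinearOrder XX := LinearOrder.lift' val val_inj

theorem xx_dense {a b : ℝ} (h : a < b) (n : ℕ) : ∃ p : XX, p.2 = n ∧ a < val p ∧ val p < b := by
  obtain ⟨q, h1, h2⟩ := exists_rat_btwn (sub_lt_sub_right h ((n : ℝ) * √2))
  exact ⟨(q, n), rfl, by simp only [val]; linarith, by simp only [val]; linarith⟩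

theorem cantor_step (ρ : ℕ → ℕ → Prop) (h1 : ∀ n, ∃ n', ρ n n') (l : List (XX × XX))
    (hl : ∀ p ∈ l, ∀ q ∈ l, (p.1 ≤ q.1 ↔ p.2 ≤ q.2)) (hρ : ∀ p ∈ l, ρ p.1.2 p.2.2) (a : XX) :
    ∃ b : XX, ρ a.2 b.2 ∧ ∀ p ∈ l, (a ≤ p.1 ↔ b ≤ p.2) ∧ (p.1 ≤ a ↔ p.2 ≤ b) := by
  classical
  by_cases ha : ∃ p ∈ l, p.1 = a
  · obtain ⟨p, hp, rfl⟩ := ha
    exact ⟨p.2, hρ p hp, fun q hq => ⟨hl p hp q hq, hl q hq p hp⟩⟩
  let lo : Finset ℝ := (l.toFinset.filter fun p => p.1 < a).image fun p => val p.2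
  let hi : Finset ℝ := (l.toFinset.filter fun p => a < p.1).image fun p => val p.2
  obtain ⟨m, m1, m2⟩ := Order.exists_between_finsets lo hi (by
    intro x hx y hy
    obtain ⟨p, hp, rfl⟩ := Finset.mem_image.mp hx
    obtain ⟨q, hq, rfl⟩ := Finset.mem_image.mp hy
    simp only [Finset.mem_filter, List.mem_toFinset] at hp hq
    have : ¬ q.2 ≤ p.2 := fun h => absurd ((hl q hq.1 p hp.1).mpr h) (not_le.mpr (hp.2.trans hq.2))
    exact not_le.mp this)
  obtain ⟨m', m3, m4⟩ := Order.exists_between_finsets {m} hi (by simpa using m2)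
  obtain ⟨n', hn⟩ := h1 a.2
  obtain ⟨b, b1, b2, b3⟩ := xx_dense (m3 m (by simp)) n'
  refine ⟨b, b1 ▸ hn, fun p hp => ?_⟩
  rcases lt_trichotomy p.1 a with h | h | h
  · have : p.2 < b := (m1 _ (Finset.mem_image.mpr ⟨p, by simp [hp, h], rfl⟩)).trans b2
    exact ⟨iff_of_false (not_le.mpr h) (not_le.mpr this), iff_of_true h.le this.le⟩
  · exact absurd ⟨p, hp, h⟩ ha
  · have : b < p.2 := b3.trans (m4 _ (Finset.mem_image.mpr ⟨p, by simp [hp, h], rfl⟩))
    exact ⟨iff_of_true h.le this.le, iff_of_false (not_le.mpr h) (not_le.mpr this)⟩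

theorem cantor (ρ : ℕ → ℕ → Prop) (h1 : ∀ n, ∃ n', ρ n n') (h2 : ∀ n', ∃ n, ρ n n') :
    ∃ θ : XX → XX, StrictMono θ ∧ Function.Surjective θ ∧ ∀ q, ρ q.2 (θ q).2 := by
  let X : List (XX × XX) → Prop := fun l =>
    (∀ p ∈ l, ∀ q ∈ l, (p.1 ≤ q.1 ↔ p.2 ≤ q.2)) ∧ ∀ p ∈ l, ρ p.1.2 p.2.2
  have hX : ∀ l (a b : XX), X l → ρ a.2 b.2 →
      (∀ p ∈ l, (a ≤ p.1 ↔ b ≤ p.2) ∧ (p.1 ≤ a ↔ p.2 ≤ b)) → X ((a, b) :: l) := by
    intro l a b h e1 e2
    refine ⟨fun p hp q hq => ?_, fun p hp => ?_⟩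
    · rcases List.mem_cons.mp hp with rfl | hp <;> rcases List.mem_cons.mp hq with rfl | hq
      · simp
      · exact (e2 q hq).1
      · exact (e2 p hp).2
      · exact h.1 p hp q hq
    · rcases List.mem_cons.mp hp with rfl | hp
      exacts [e1, h.2 p hp]
  obtain ⟨T, -, t1, t2, t3⟩ := bf univ univ X [] ⟨by simp, by simp⟩
    (fun l h a _ => by
      obtain ⟨b, e1, e2⟩ := cantor_step ρ h1 l h.1 h.2 a
      exact ⟨b, hX l a b h e1 e2⟩)
    (fun l h b _ => by
      obtain ⟨a, e1, e2⟩ := cantor_step (fun n' n => ρ n n') h2 (l.map Prod.swap)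
        (by
          simp only [List.mem_map, forall_exists_index, and_imp, forall_apply_eq_imp_iff₂]
          exact fun p hp q hq => (h.1 p hp q hq).symm)
        (by
          simp only [List.mem_map, forall_exists_index, and_imp, forall_apply_eq_imp_iff₂]
          exact h.2) b
      refine ⟨a, hX l a b h e1 fun p hp => ?_⟩
      have := e2 p.swap (List.mem_map.mpr ⟨p, hp, rfl⟩)
      exact ⟨this.1.symm, this.2.symm⟩)
  have hP : ∀ a b a' b', T a b → T a' b' → (a ≤ a' ↔ b ≤ b') := fun a b a' b' e1 e2 => by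
    obtain ⟨l, hl, m1, m2⟩ := t3 a b a' b' e1 e2
    exact hl.1 _ m1 _ m2
  choose θ hθ using fun a => t1 a (mem_univ a)
  refine ⟨θ, fun a a' h => ?_, fun b => ?_, fun q => ?_⟩
  · exact not_le.mp fun h' => absurd ((hP _ _ _ _ (hθ a') (hθ a)).mpr h') (not_le.mpr h)
  · obtain ⟨a, ha⟩ := t2 b (mem_univ b)
    exact ⟨a, le_antisymm ((hP _ _ _ _ (hθ a) ha).mp le_rfl) ((hP _ _ _ _ ha (hθ a)).mp le_rfl)⟩
  · obtain ⟨l, hl, m1, -⟩ := t3 _ _ _ _ (hθ q) (hθ q)
    exact hl.2 _ m1

def TT : Type := List XX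

noncomputable instance : LinearOrder TT := (inferInstance : LinearOrder (List XX))

instance : Countable TT := (inferInstance : Countable (List XX))

theorem tt_lt {s t : TT} : s < t ↔ List.Lex (· < ·) s t := Iff.rfl

theorem lex_pre (s : List XX) (q : XX) : List.Lex (· < ·) s (s ++ [q]) := by
  induction s with
  | nil => exact List.Lex.nil
  | cons a s ih => exact List.Lex.cons ih

theorem lex_dense {s t : List XX} (h : List.Lex (· < ·) s t) :
    ∃ u, List.Lex (· < ·) s u ∧ List.Lex (· < ·) u t := by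
  induction h with
  | @nil b t =>
    obtain ⟨p, -, -, hp⟩ := xx_dense (sub_one_lt (val b)) 0
    exact ⟨[p], List.Lex.nil, List.Lex.rel hp⟩
  | @rel a s b t h => exact ⟨a :: (s ++ [a]), List.Lex.cons (lex_pre s a), List.Lex.rel h⟩
  | cons _ ih =>
    obtain ⟨u, h1, h2⟩ := ih
    exact ⟨_, List.Lex.cons h1, List.Lex.cons h2⟩

theorem lex_par (q : XX) (s : List XX) : ∀ u : List XX, List.Lex (· < ·) u (s ++ [q]) →
    u.length ≤ s.length → List.Lex (· < ·) u s ∨ u = s := by
  induction s with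
  | nil => exact fun u _ h => Or.inr (List.eq_nil_of_length_eq_zero (by simpa using h))
  | cons a s ih =>
    intro u h hl
    cases h with
    | nil => exact Or.inl List.Lex.nil
    | rel h => exact Or.inl (List.Lex.rel h)
    | cons h =>
      rcases ih _ h (by simpa using hl) with h | h
      · exact Or.inl (List.Lex.cons h)
      · exact Or.inr (by rw [h])

def Dn (_n : TT → ℕ) : Type := TT × ℕ

noncomputable def key (a : ℕ) (p : TT × ℕ) : TT ×ₗ (ℕ ×ₗ ℕ) :=
  toLex (p.1, toLex (if p.2 < a then 1 else 0, p.2))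

theorem key_inj (n : TT → ℕ) : Function.Injective fun p : TT × ℕ => key (n p.1) p := by
  rintro ⟨s, j⟩ ⟨t, k⟩ h
  simp only [key, EmbeddingLike.apply_eq_iff_eq, Prod.mk.injEq] at h
  rw [h.1, h.2.2]

noncomputable instance (n : TT → ℕ) : LinearOrder (Dn n) :=
  LinearOrder.lift' (fun p : TT × ℕ => key (n p.1) p) (key_inj n)

def mkD (n : TT → ℕ) (s : TT) (j : ℕ) : Dn n := (s, j)

theorem dn_lt {n : TT → ℕ} {s t : TT} {j k : ℕ} : mkD n s j < mkD n t k ↔ s < t ∨ (s = t ∧
    ((¬ j < n s ∧ k < n s) ∨ ((j < n s ↔ k < n s) ∧ j < k))) := by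
  show key (n s) (s, j) < key (n t) (t, k) ↔ _
  simp only [key, Prod.Lex.toLex_lt_toLex]
  refine or_congr_right (and_congr_right ?_)
  rintro rfl
  split_ifs <;> first | omega | (simp_all; done) | (simp_all; omega)

theorem dn_cases {n : TT → ℕ} (p : Dn n) : ∃ s j, p = mkD n s j := ⟨p.1, p.2, rfl⟩

theorem cov_succ {n : TT → ℕ} {s : TT} {j : ℕ} (h : j + 1 ≠ n s) :
    mkD n s j ⋖ mkD n s (j + 1) := by
  refine ⟨dn_lt.mpr (Or.inr ⟨rfl, Or.inr ⟨by omega, by omega⟩⟩), fun p h1 h2 => ?_⟩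
  obtain ⟨t, k, rfl⟩ := dn_cases p
  rcases dn_lt.mp h1 with h1 | ⟨rfl, h1⟩ <;> rcases dn_lt.mp h2 with h2 | ⟨h3, h2⟩
  · exact lt_asymm h1 h2
  · exact h1.ne' h3
  · exact lt_irrefl _ h2
  · omega

theorem no_succ {n : TT → ℕ} {s : TT} {j : ℕ} (h : j + 1 = n s) (p : Dn n) : ¬ mkD n s j ⋖ p := by
  obtain ⟨t, k, rfl⟩ := dn_cases p
  intro hc
  rcases dn_lt.mp hc.1 with h1 | ⟨rfl, h1⟩
  · obtain ⟨u, h2, h3⟩ := lex_dense (tt_lt.mp h1)
    exact hc.2 (c := mkD n u 0) (dn_lt.mpr (Or.inl h2)) (dn_lt.mpr (Or.inl h3))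
  · refine hc.2 (c := mkD n s j) ?_ hc.1
    omega

theorem no_pred {n : TT → ℕ} {s : TT} (h : 0 < n s) (p : Dn n) : ¬ p ⋖ mkD n s 0 := by
  obtain ⟨t, k, rfl⟩ := dn_cases p
  intro hc
  rcases dn_lt.mp hc.1 with h1 | ⟨rfl, h1⟩
  · exact hc.2 (c := mkD n s (n s)) (dn_lt.mpr (Or.inl h1))
      (dn_lt.mpr (Or.inr ⟨rfl, Or.inl ⟨lt_irrefl _, h⟩⟩))
  · exact hc.2 (c := mkD n t (k + 1)) (dn_lt.mpr (Or.inr ⟨rfl, Or.inr ⟨by omega, by omega⟩⟩))
      (dn_lt.mpr (Or.inr ⟨rfl, Or.inl ⟨by omega, h⟩⟩))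

def Rg {n n' : TT → ℕ} (F : Dn n ≃o Dn n') (s s' : TT) : Prop :=
  F (mkD n s (n s - 1)) = mkD n' s' (n' s' - 1)

theorem Rg.symm {n n' : TT → ℕ} {F : Dn n ≃o Dn n'} {s s' : TT} (h : Rg F s s') :
    Rg F.symm s' s := by
  unfold Rg at h ⊢
  rw [← h, OrderIso.symm_apply_apply]

theorem rg_tot {n n' : TT → ℕ} (hn : ∀ s, 0 < n s) (F : Dn n ≃o Dn n') (s : TT) :
    ∃ s', Rg F s s' := by
  obtain ⟨t, k, h⟩ := dn_cases (F (mkD n s (n s - 1)))
  refine ⟨t, ?_⟩
  by_cases hk : k + 1 = n' t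
  · unfold Rg
    rw [h, ← hk]
    rfl
  · have h1 := cov_succ hk
    rw [← h, ← F.apply_symm_apply (mkD n' t (k + 1)), apply_covBy_apply_iff] at h1
    exact absurd h1 (no_succ (by have := hn s; omega) _)

theorem rg_lt {n n' : TT → ℕ} {F : Dn n ≃o Dn n'} {s s' t t' : TT} (h : Rg F s s')
    (h' : Rg F t t') (hlt : s < t) : s' < t' := by
  have : mkD n' s' (n' s' - 1) < mkD n' t' (n' t' - 1) := by
    rw [← h, ← h', F.lt_iff_lt]
    exact dn_lt.mpr (Or.inl hlt)
  rcases dn_lt.mp this with h1 | ⟨rfl, -⟩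
  · exact h1
  · exact absurd this (lt_irrefl _)

theorem rg_le {n n' : TT → ℕ} (hn' : ∀ s, 0 < n' s) {F : Dn n ≃o Dn n'} {s s' : TT}
    (h : Rg F s s') : n s ≤ n' s' := by
  have key : ∀ i, i < n s → i < n' s' ∧ F (mkD n s (n s - 1 - i)) = mkD n' s' (n' s' - 1 - i) := by
    intro i
    induction i with
    | zero => exact fun _ => ⟨hn' s', h⟩
    | succ i ih =>
      intro hi
      obtain ⟨h1, h2⟩ := ih (by omega)
      have h3 : mkD n s (n s - 1 - (i + 1)) ⋖ mkD n s (n s - 1 - i) := by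
        have := cov_succ (n := n) (s := s) (j := n s - 1 - (i + 1)) (by omega)
        rwa [show n s - 1 - (i + 1) + 1 = n s - 1 - i by omega] at this
      rw [← apply_covBy_apply_iff F, h2] at h3
      have h4 : i + 1 < n' s' := by
        by_contra hc
        rw [show n' s' - 1 - i = 0 by omega] at h3
        exact no_pred (hn' s') _ h3
      refine ⟨h4, h3.unique_left ?_⟩
      have := cov_succ (n := n') (s := s') (j := n' s' - 1 - (i + 1)) (by omega)
      rwa [show n' s' - 1 - (i + 1) + 1 = n' s' - 1 - i by omega] at this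
  by_contra hc
  have := (key (n' s') (by omega)).1
  omega

variable {S : Type}

open Classical in
noncomputable def stepc (s : S → S → Prop) : Option S → Option S → Option S
  | some u, some v => if s u v then some v else none
  | _, _ => none

noncomputable def run (col : ℕ → Option S) (s : S → S → Prop) (o : Option S) (t : List XX) :
    Option S := t.foldl (fun o q => stepc s o (col q.2)) o

def olab (l : S → ℕ) : Option S → ℕ
  | none => 0
  | some u => l u + 1

noncomputable def nn (col : ℕ → Option S) (l : S → ℕ) (r0 : S) (s : S → S → Prop) (t : TT) : ℕ :=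
  Nat.pair (List.length t) (olab l (run col s (some r0) t)) + 1

theorem stepc_some {s : S → S → Prop} {o c : Option S} {v : S} (h : stepc s o c = some v) :
    ∃ u, o = some u ∧ c = some v ∧ s u v := by
  cases o with
  | none => cases h
  | some u =>
    cases c with
    | none => cases h
    | some w =>
      simp only [stepc] at h
      split_ifs at h with h1
      cases h
      exact ⟨u, rfl, rfl, h1⟩

theorem stepc_of {s : S → S → Prop} {u v : S} (h : s u v) : stepc s (some u) (some v) = some v := by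
  simp [stepc, h]

theorem stepc_none (s : S → S → Prop) (o : Option S) : stepc s o none = none := by
  cases o <;> rfl

theorem rg_forth {col : ℕ → Option S} (hcol : Function.Surjective col) {l : S → ℕ} {r0 : S}
    {s s' : S → S → Prop} {F : Dn (nn col l r0 s) ≃o Dn (nn col l r0 s')} {t t' : TT} {u u' : S}
    (h : Rg F t t') (h1 : run col s (some r0) t = some u) (h2 : run col s' (some r0) t' = some u') :
    l u = l u' ∧ ∀ v, s u v → ∃ v', s' u' v' ∧ ∃ w w', Rg F w w' ∧
      run col s (some r0) w = some v ∧ run col s' (some r0) w' = some v' := by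
  have he : ∀ w w' : TT, Rg F w w' → List.length w = List.length w' ∧
      olab l (run col s (some r0) w) = olab l (run col s' (some r0) w') := by
    intro w w' h
    have := le_antisymm (rg_le (fun _ => Nat.succ_pos _) h) (rg_le (fun _ => Nat.succ_pos _) h.symm)
    exact Nat.pair_eq_pair.mp (Nat.succ.inj this)
  refine ⟨by simpa [h1, h2, olab] using (he _ _ h).2, fun v hv => ?_⟩
  obtain ⟨c, hc⟩ := hcol (some v)
  let q : XX := (0, c)
  have e1 : run col s (some r0) (List.append t [q]) = some v := by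
    show List.foldl _ _ (List.append t [q]) = _
    rw [List.append_eq, List.foldl_append]
    show stepc s (run col s (some r0) t) (col c) = _
    rw [h1, hc, stepc_of hv]
  obtain ⟨w', hw⟩ := rg_tot (fun _ => Nat.succ_pos _) F (List.append t [q])
  obtain ⟨e2, e3⟩ := he _ _ hw
  have e4 := (he _ _ h).1
  rcases List.eq_nil_or_concat' w' with rfl | ⟨z', q', rfl⟩
  · simp at e2
  obtain ⟨z, hz⟩ := rg_tot (fun _ => Nat.succ_pos _) F.symm z'
  have e5 := (he _ _ hz.symm).1
  simp only [List.append_eq, List.length_append, List.length_singleton] at e2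
  have e6 : z' = t' := by
    rcases lex_par q' z' t' (rg_lt h hw (lex_pre t q)) (by omega) with e7 | e7
    · rcases lex_par q t z (rg_lt hz hw.symm (lex_pre z' q')) (by omega) with e8 | e8
      · exact absurd (rg_lt h.symm hz e7) (lt_asymm (tt_lt.mpr e8))
      · exact absurd (rg_lt h.symm hz e7) (e8 ▸ lt_irrefl _)
    · exact e7.symm
  subst e6
  have e7 : run col s' (some r0) (z' ++ [q']) = stepc s' (some u') (col q'.2) := by
    show List.foldl _ _ (z' ++ [q']) = _
    rw [List.foldl_append]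
    show stepc s' (run col s' (some r0) z') _ = _
    rw [h2]
  cases e8 : run col s' (some r0) (z' ++ [q']) with
  | none =>
    rw [e1, e8] at e3
    cases e3
  | some v' =>
    obtain ⟨_, e9, -, e10⟩ := stepc_some (e7.symm.trans e8)
    cases e9
    exact ⟨v', e10, _, _, hw, e1, e8⟩

theorem bis_of_iso {col : ℕ → Option S} (hcol : Function.Surjective col) {l : S → ℕ} {r0 : S}
    {s s' : S → S → Prop} (F : Dn (nn col l r0 s) ≃o Dn (nn col l r0 s')) :
    ∃ Y, IsBis s s' l l Y ∧ Y r0 r0 := by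
  refine ⟨fun u u' => ∃ w w', Rg F w w' ∧ run col s (some r0) w = some u ∧
    run col s' (some r0) w' = some u', ?_, ?_⟩
  · rintro u u' ⟨t, t', h, h1, h2⟩
    refine ⟨(rg_forth hcol h h1 h2).1, (rg_forth hcol h h1 h2).2, fun v' hv => ?_⟩
    obtain ⟨v, h3, w', w, h4, h5, h6⟩ := (rg_forth hcol h.symm h2 h1).2 v' hv
    exact ⟨v, h3, w, w', h4.symm, h6, h5⟩
  · obtain ⟨w', hw⟩ := rg_tot (fun _ => Nat.succ_pos _) F ([] : List XX)
    have := le_antisymm (rg_le (fun _ => Nat.succ_pos _) hw)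
      (rg_le (fun _ => Nat.succ_pos _) hw.symm)
    have h1 : w' = [] := List.eq_nil_of_length_eq_zero (Nat.pair_eq_pair.mp (Nat.succ.inj this)).1.symm
    subst h1
    exact ⟨_, _, hw, rfl, rfl⟩

theorem iso_of_bis {col : ℕ → Option S} (hcol : Function.Surjective col) {l : S → ℕ} {r0 : S}
    {s s' : S → S → Prop} {Y : S → S → Prop} (hY : IsBis s s' l l Y) (h0 : Y r0 r0) :
    Nonempty (Dn (nn col l r0 s) ≃o Dn (nn col l r0 s')) := by
  let Zo : Option S → Option S → Prop := fun o o' =>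
    (o = none ∧ o' = none) ∨ ∃ u u', o = some u ∧ o' = some u' ∧ Y u u'
  have hθ : ∀ o o', ∃ θ : XX → XX, StrictMono θ ∧ Function.Surjective θ ∧
      (Zo o o' → ∀ q, Zo (stepc s o (col q.2)) (stepc s' o' (col (θ q).2))) := by
    intro o o'
    by_cases h : Zo o o'
    · obtain ⟨c0, hc0⟩ := hcol none
      obtain ⟨θ, h1, h2, h3⟩ := cantor (fun n n' => Zo (stepc s o (col n)) (stepc s' o' (col n')))
        (fun n => by
          cases e : stepc s o (col n) with
          | none => exact ⟨c0, Or.inl ⟨rfl, by rw [hc0, stepc_none]⟩⟩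
          | some v =>
            obtain ⟨u, rfl, -, e1⟩ := stepc_some e
            rcases h with ⟨h, -⟩ | ⟨_, u', h, rfl, e2⟩
            · cases h
            cases h
            obtain ⟨v', e3, e4⟩ := (hY _ _ e2).2.1 v e1
            obtain ⟨c, hc⟩ := hcol (some v')
            exact ⟨c, Or.inr ⟨v, v', rfl, by rw [hc, stepc_of e3], e4⟩⟩)
        (fun n => by
          cases e : stepc s' o' (col n) with
          | none => exact ⟨c0, Or.inl ⟨by rw [hc0, stepc_none], rfl⟩⟩
          | some v =>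
            obtain ⟨u, rfl, -, e1⟩ := stepc_some e
            rcases h with ⟨-, h⟩ | ⟨u', _, rfl, h, e2⟩
            · cases h
            cases h
            obtain ⟨v', e3, e4⟩ := (hY _ _ e2).2.2 v e1
            obtain ⟨c, hc⟩ := hcol (some v')
            exact ⟨c, Or.inr ⟨v', v, by rw [hc, stepc_of e3], rfl, e4⟩⟩)
      exact ⟨θ, h1, h2, fun _ => h3⟩
    · exact ⟨id, strictMono_id, Function.surjective_id, fun h' => absurd h' h⟩
  choose θ t1 t2 t3 using hθ
  let G : List XX → Option S → Option S → List XX := fun t =>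
    List.rec (fun _ _ => []) (fun q _ g o o' =>
      θ o o' q :: g (stepc s o (col q.2)) (stepc s' o' (col (θ o o' q).2))) t
  have hG : ∀ q t o o', G (q :: t) o o' =
      θ o o' q :: G t (stepc s o (col q.2)) (stepc s' o' (col (θ o o' q).2)) := fun _ _ _ _ => rfl
  have g1 : ∀ t o o', (G t o o').length = t.length := by
    intro t
    induction t with
    | nil => exact fun _ _ => rfl
    | cons q t ih => intro o o'; rw [hG]; simp [ih]
  have g2 : ∀ t t' : List XX, List.Lex (· < ·) t t' → ∀ o o',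
      List.Lex (· < ·) (G t o o') (G t' o o') := by
    intro t t' h
    induction h with
    | nil => exact fun _ _ => List.Lex.nil
    | rel h => exact fun o o' => List.Lex.rel (t1 o o' h)
    | cons _ ih => exact fun o o' => List.Lex.cons (ih _ _)
  have g3 : ∀ t' o o', ∃ t, G t o o' = t' := by
    intro t'
    induction t' with
    | nil => exact fun _ _ => ⟨[], rfl⟩
    | cons q' t' ih =>
      intro o o'
      obtain ⟨q, rfl⟩ := t2 o o' q'
      obtain ⟨t, ht⟩ := ih (stepc s o (col q.2)) (stepc s' o' (col (θ o o' q).2))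
      exact ⟨q :: t, by rw [hG, ht]⟩
  have g4 : ∀ t o o', Zo o o' → Zo (run col s o t) (run col s' o' (G t o o')) := by
    intro t
    induction t with
    | nil => exact fun _ _ h => h
    | cons q t ih => exact fun o o' h => ih _ _ (t3 o o' h q)
  let g : TT → TT := fun t => G t (some r0) (some r0)
  have g5 : ∀ t, nn col l r0 s' (g t) = nn col l r0 s t := by
    intro t
    unfold nn
    rw [g1]
    rcases g4 t _ _ (Or.inr ⟨r0, r0, rfl, rfl, h0⟩) with ⟨e1, e2⟩ | ⟨u, u', e1, e2, e3⟩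
    · rw [e1, e2]
    · rw [e1, e2]
      simp only [olab, (hY _ _ e3).1]
  refine ⟨StrictMono.orderIsoOfSurjective (fun p => mkD _ (g p.1) p.2) (fun p q h => ?_) fun q => ?_⟩
  · obtain ⟨a, j, rfl⟩ := dn_cases p
    obtain ⟨b, k, rfl⟩ := dn_cases q
    refine dn_lt.mpr ?_
    rcases dn_lt.mp h with h' | ⟨rfl, h'⟩
    · exact Or.inl (g2 _ _ h' _ _)
    · refine Or.inr ⟨rfl, ?_⟩
      show (¬ j < nn col l r0 s' (g a) ∧ k < nn col l r0 s' (g a)) ∨
        ((j < nn col l r0 s' (g a) ↔ k < nn col l r0 s' (g a)) ∧ j < k)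
      rw [g5]
      exact h'
  · obtain ⟨b, k, rfl⟩ := dn_cases q
    obtain ⟨a, ha⟩ := g3 b (some r0) (some r0)
    exact ⟨mkD _ a k, ha ▸ rfl⟩

end Pool.Agent.H.MP_387a72_lc
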