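import Pool.Agent.H.MP_387a72_lc.F

set_option autoImplicit false

namespace Pool.Agent.H.MP_387a72_lc
open Set

def leOf (x : ℕ × ℕ → Bool) : LE ℕ := ⟨fun a b => x (a, b) = true⟩

theorem m_le (a b : ℕ) : Measurable fun x : ℕ × ℕ → Bool => (leOf x).le a b :=
  (measurable_of_countable (fun c : Bool => c = true)).comp (measurable_pi_apply (a, b))

theorem m_sle (s : Bool) (a b : ℕ) : Measurable fun x => @sle ℕ (leOf x) s a b :=
  (measurable_const.imp (m_le _ _)).and (measurable_const.imp (m_le _ _))

theorem m_hull (l : List (ℕ × ℕ)) (s : Bool) (z : ℕ) :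
    Measurable fun x => @Hull ℕ (leOf x) l s z :=
  Measurable.exists fun _ => measurable_const.and (Measurable.exists fun _ =>
    measurable_const.and ((m_le _ _).and (m_le _ _)))

theorem m_cmp (l : List (ℕ × ℕ)) : Measurable fun x => @Cmp ℕ (leOf x) l :=
  Measurable.forall fun _ => measurable_const.imp (Measurable.forall fun _ =>
    measurable_const.imp ((m_le _ _).iff (m_le _ _)))

theorem m_sc (p q : Pos ℕ) : Measurable fun x => @sc ℕ (leOf x) p q := by
  cases p with
  | top => exact measurable_const
  | bot => exact measurable_const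
  | pad p => exact measurable_const
  | and p p' => exact measurable_const
  | iso l =>
    exact (measurable_const.and (m_cmp l).not).or (Measurable.exists fun _ =>
      Measurable.exists fun _ => measurable_const.and (m_hull _ _ _))
  | ch l s z => exact Measurable.exists fun _ => measurable_const.and (m_hull _ _ _)
  | emb s a y a' m =>
    exact (Measurable.exists fun _ => (m_sle _ _ _).and ((Measurable.exists fun _ =>
      measurable_const.and ((m_sle _ _ _).not.and measurable_const)).or measurable_const)).or
      measurable_const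
  | wit a a' m =>
    exact measurable_const.or ((Measurable.exists fun _ => Measurable.exists fun _ =>
      Measurable.exists fun _ => measurable_const.and ((m_sle _ _ _).and measurable_const)).or
      measurable_const)
  | ex k a => exact measurable_const
  | root k => exact Measurable.exists fun _ => (m_le _ _).and measurable_const

theorem m_stp (p q : Pos ℕ) : Measurable fun x => stp (@DD ℕ (leOf x)) p q :=
  show Measurable fun x => q = Pos.top ∨ (¬ al p ∧ q = p) ∨
    (al p ∧ ∃ t, @sc ℕ (leOf x) p t ∧ q = Pos.pad t) from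
  measurable_const.or (measurable_const.or (measurable_const.and (Measurable.exists fun _ =>
    (m_sc _ _).and measurable_const)))

theorem m_cs (c d : Bool × Pos ℕ × Pos ℕ) : Measurable fun x => cs (@DD ℕ (leOf x)) c d :=
  show Measurable fun x => (c.1 = true ∧ d.1 = false ∧ (stp (@DD ℕ (leOf x)) c.2.1 d.2.1 ∨
    stp (@DD ℕ (leOf x)) c.2.2 d.2.1) ∧ ¬ al d.2.2) ∨ (c.1 = false ∧ d.1 = true ∧
      (@sc ℕ (leOf x) c.2.1 d.2.1 ∨ @sc ℕ (leOf x) c.2.2 d.2.1)) from
  (measurable_const.and (measurable_const.and (((m_stp _ _).or (m_stp _ _)).and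
    measurable_const))).or (measurable_const.and (measurable_const.and
      ((m_sc _ _).or (m_sc _ _))))

theorem m_iv (d : Bool → Option ℕ) (z : ℕ) : Measurable fun x => @Iv ℕ (leOf x) d z :=
  Measurable.forall fun _ => Measurable.forall fun _ => measurable_const.imp (m_sle _ _ _)

theorem m_ty (z : ℕ) (l : List ℕ) : ∀ n, Measurable fun x => @Ty ℕ (leOf x) z l n := by
  induction l with
  | nil => exact fun _ => measurable_const
  | cons w l ih =>
    exact fun n => Measurable.exists fun _ => Measurable.exists fun _ => measurable_const.and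
      ((measurable_const.iff (m_le _ _)).and ((measurable_const.iff (m_le _ _)).and (ih _)))

theorem m_ss (u v : St ℕ) : Measurable fun x => @ss ℕ (leOf x) u v := by
  cases u with
  | root => exact measurable_const
  | jk k => exact measurable_const
  | set k =>
    exact measurable_const.or (Measurable.exists fun _ => measurable_const.and
      ((Measurable.exists fun _ => m_iv _ _).and measurable_const))
  | tup k d l =>
    exact measurable_const.or (Measurable.exists fun _ => Measurable.exists fun _ =>
      (m_iv _ _).and ((m_ty _ _ _).and measurable_const))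
  | edge k n b t => exact measurable_const
  | cd c => exact Measurable.exists fun _ => (m_cs _ _).and measurable_const

theorem m_nn {Ω S : Type} [MeasurableSpace Ω] [Countable S] (s : Ω → S → S → Prop)
    (hs : ∀ u v, Measurable fun x => s x u v) (col : ℕ → Option S) (l : S → ℕ) (r0 : S) (t : TT) :
    Measurable fun x => nn col l r0 (s x) t := by
  have h1 : ∀ o c o', Measurable fun x => stepc (s x) o c = o' := by
    intro o c o'
    cases o with
    | none => exact measurable_const (a := none = o')
    | some u =>
      cases c with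
      | none => exact measurable_const (a := none = o')
      | some v =>
        have : (fun x => stepc (s x) (some u) (some v) = o') =
            fun x => (s x u v ∧ some v = o') ∨ (¬ s x u v ∧ none = o') := by
          funext x
          by_cases h : s x u v <;> simp [stepc, h]
        rw [this]
        exact ((hs u v).and measurable_const).or ((hs u v).not.and measurable_const)
  have h2 : ∀ (t : List XX) o o', Measurable fun x => run col (s x) o t = o' := by
    intro t
    induction t with
    | nil => exact fun o o' => measurable_const (a := o = o')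
    | cons q t ih =>
      intro o o'
      have : (fun x => run col (s x) o (q :: t) = o') =
          fun x => ∃ o1, stepc (s x) o (col q.2) = o1 ∧ run col (s x) o1 t = o' := by
        funext x
        simp only [exists_eq_left']
        rfl
      rw [this]
      exact Measurable.exists fun _ => (h1 _ _ _).and (ih _ _)
  refine measurable_to_countable' fun y => ?_
  have : (fun x => nn col l r0 (s x) t) ⁻¹' {y} =
      {x | ∃ o, run col (s x) (some r0) t = o ∧ Nat.pair (List.length t) (olab l o) + 1 = y} := by
    ext x
    simp [nn]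
  rw [this]
  exact (Measurable.exists fun _ => (h2 _ _ _).and measurable_const).setOf

abbrev LO0 : Type := {x : ℕ × ℕ → Bool // IsLinearOrder ℕ fun m n => x (m, n) = true}

def Car (_x : LO0) : Type := ℕ

instance (x : LO0) : Countable (Car x) := (inferInstance : Countable ℕ)
instance (x : LO0) : Nonempty (Car x) := (inferInstance : Nonempty ℕ)

noncomputable instance (x : LO0) : LinearOrder (Car x) where
  le a b := x.1 (a, b) = true
  le_refl a := x.2.refl a
  le_trans a b c := x.2.trans a b c
  le_antisymm a b := x.2.antisymm a b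
  le_total a b := x.2.total a b
  toDecidableLE := Classical.decRel _

theorem main : ∃ h : LO0 → LO0, Measurable h ∧ ∀ x y : LO0,
    ((∃ R : Car x → Car y → Prop, CPI R ∧ Tot R) ∧ (∃ R : Car y → Car x → Prop, CPI R ∧ Tot R)) ↔
      ∃ f : ℕ ≃ ℕ, ∀ m n, (h x).1 (m, n) = (h y).1 (f m, f n) := by
  classical
  obtain ⟨col, hcol⟩ := exists_surjective_nat (Option (St ℕ))
  obtain ⟨enc, henc⟩ := exists_injective_nat (ℕ × (Bool → Bool) × List (Bool × Bool))
  haveI : Nonempty TT := ⟨([] : List XX)⟩
  obtain ⟨e⟩ : Nonempty (ℕ ≃ TT × ℕ) := nonempty_equiv_of_countable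
  let N : LO0 → TT → ℕ := fun x => nn col (fun u => enc (lab u)) St.root (@ss ℕ (leOf x.1))
  let E : ∀ x : LO0, ℕ ≃ Dn (N x) := fun _ => e
  refine ⟨fun x => ⟨fun p => decide (E x p.1 ≤ E x p.2),
    { refl := fun a => by simp
      trans := fun a b c h1 h2 => by
        simp only [decide_eq_true_eq] at h1 h2 ⊢
        exact h1.trans h2
      antisymm := fun a b h1 h2 => by
        simp only [decide_eq_true_eq] at h1 h2
        exact (E x).injective (le_antisymm h1 h2)
      total := fun a b => by
        simp only [decide_eq_true_eq]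
        exact le_total _ _ }⟩, ?_, fun x y => ?_⟩
  · refine Measurable.subtype_mk (measurable_pi_lambda _ fun p => ?_)
    have hN : ∀ t, Measurable fun x : LO0 => N x t := fun t =>
      m_nn (fun x : LO0 => @ss ℕ (leOf x.1))
        (fun u v => (m_ss u v).comp measurable_subtype_coe) _ _ _ t
    have := (measurable_of_countable fun ab : ℕ × ℕ =>
      decide (key ab.1 (e p.1) ≤ key ab.2 (e p.2))).comp ((hN (e p.1).1).prodMk (hN (e p.2).1))
    refine Eq.subst (motive := fun g : LO0 → Bool => Measurable g) ?_ this
    funext x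
    exact decide_eq_decide.mpr Iff.rfl
  have hb : ∀ Y : St ℕ → St ℕ → Prop,
      IsBis (@ss ℕ (leOf x.1)) (@ss ℕ (leOf y.1)) (fun u => enc (lab u)) (fun u => enc (lab u)) Y ↔
        IsBis (ss (α := Car x)) (ss (α := Car y)) lab lab Y := fun Y =>
    ⟨fun h u u' hu => ⟨henc (h u u' hu).1, (h u u' hu).2⟩,
      fun h u u' hu => ⟨congrArg enc (h u u' hu).1, (h u u' hu).2⟩⟩
  constructor
  · rintro ⟨⟨R, h1, t1⟩, ⟨S, h2, t2⟩⟩
    obtain ⟨F⟩ := iso_of_bis hcol ((hb _).mpr (invariance h1 h2 t1 t2))
      (Z.root (α := Car x) (β := Car y))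
    refine ⟨(E x).trans (F.toEquiv.trans (E y).symm), fun m n => decide_eq_decide.mpr ?_⟩
    show _ ↔ E y ((E y).symm (F (E x m))) ≤ E y ((E y).symm (F (E x n)))
    rw [Equiv.apply_symm_apply, Equiv.apply_symm_apply]
    exact F.le_iff_le.symm
  · rintro ⟨f, hf⟩
    let F : Dn (N x) ≃o Dn (N y) :=
      { toEquiv := (E x).symm.trans (f.trans (E y))
        map_rel_iff' := fun {a b} => by
          have := decide_eq_decide.mp (hf ((E x).symm a) ((E x).symm b))
          simp only [Equiv.apply_symm_apply] at this
          exact this.symm }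
    obtain ⟨Y, h1, h2⟩ := bis_of_iso hcol F
    have h3 := (hb Y).mp h1
    exact ⟨complete h3 h2, complete h3.flip h2⟩

theorem cvx_iff (x y : LO0) : (∃ f : ℕ → ℕ, (∀ m n, x.1 (m, n) = y.1 (f m, f n)) ∧
    ∀ m n k, y.1 (f m, k) = true → y.1 (k, f n) = true → k ∈ Set.range f) ↔
      ∃ R : Car x → Car y → Prop, CPI R ∧ Tot R := by
  constructor
  · rintro ⟨f, h1, h2⟩
    refine ⟨fun a b => f a = b, ⟨?_, fun _ _ _ _ z _ _ _ _ => ⟨_, rfl⟩, ?_⟩, fun a => ⟨_, rfl⟩⟩
    · rintro a _ a' _ rfl rfl
      show x.1 (a, a') = true ↔ y.1 (f a, f a') = true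
      rw [h1]
    · rintro a _ a' _ w rfl rfl h3 h4
      exact h2 a a' w h3 h4
  · rintro ⟨R, h1, t⟩
    choose f hf using t
    refine ⟨f, fun m n => Bool.eq_iff_iff.mpr (h1.1 _ _ _ _ (hf m) (hf n)), fun m n k h3 h4 => ?_⟩
    obtain ⟨z, hz⟩ := h1.2.2 _ _ _ _ k (hf m) (hf n) h3 h4
    exact ⟨z, le_antisymm (α := Car y) ((h1.1 _ _ _ _ (hf z) hz).mp le_rfl)
      ((h1.1 _ _ _ _ hz (hf z)).mp le_rfl)⟩

end Pool.Agent.H.MP_387a72_lc
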